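import Pool.Agent.H.MP_0447a2_lc.D

set_option autoImplicit false

namespace Pool.Agent.H.MP_2e8a17_an
open Finset Filter Topology Real MeasureTheory Polynomial Pool.Agent.H.MP_f44585_an
  Pool.Agent.H.MP_0447a2_lc

theorem est {c η : ℝ} (c0 : 0 ≤ c) (c1 : c < 1) (e0 : 0 < η) {z : ℂ} (hz : z.re ≤ c * ‖z‖) :
    z - η ≠ 0 ∧ (-(z / (z - η)).re ≤ 2 / (1 - c) * (min (‖z‖ / η) 1 - min (‖z‖ / (2 * η)) 1)) ∧
      (‖z‖ = 1 → η ≤ 1 / 2 → 2 / 9 ≤ (z / (z - η)).re) := by
  have n0 := norm_nonneg z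
  have h1 : Complex.normSq (z - η) = ‖z‖ ^ 2 - 2 * η * z.re + η ^ 2 := by
    rw [Complex.sq_norm, Complex.normSq_apply, Complex.normSq_apply]
    simp
    ring
  have h2 : (1 - c) * (‖z‖ ^ 2 + η ^ 2) ≤ Complex.normSq (z - η) := by
    rw [h1]
    nlinarith [mul_nonneg c0 (sq_nonneg (‖z‖ - η)), mul_le_mul_of_nonneg_left hz e0.le]
  have h3 : 0 < Complex.normSq (z - η) :=
    lt_of_lt_of_le (mul_pos (by linarith) (by positivity)) h2
  have h4 : (z / (z - η)).re = (‖z‖ ^ 2 - η * z.re) / Complex.normSq (z - η) := by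
    rw [Complex.div_re, Complex.sq_norm, Complex.normSq_apply z, ← add_div]
    simp
    ring
  have h5 := abs_le.mp (Complex.abs_re_le_norm z)
  refine ⟨Complex.normSq_pos.mp h3, ?_, fun h e => ?_⟩
  · rw [h4, ← neg_div]
    rcases le_total η ‖z‖ with h | h
    · refine (div_nonpos_of_nonpos_of_nonneg (by nlinarith) h3.le).trans
        (mul_nonneg (div_nonneg two_pos.le (by linarith)) (sub_nonneg.mpr (min_le_min_right _ ?_)))
      gcongr
      linarith
    · rw [min_eq_left ((div_le_one e0).mpr h), min_eq_left ((div_le_one (by positivity)).mpr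
        (by linarith))]
      have c2 : 0 < 1 - c := by linarith
      calc _ ≤ η * ‖z‖ / ((1 - c) * η ^ 2) :=
            div_le_div₀ (by positivity) (by nlinarith) (by positivity) (le_trans (by nlinarith) h2)
        _ = _ := by field_simp; ring
  · rw [h4, le_div_iff₀ h3, h1, h]
    rw [h] at h5
    nlinarith

theorem runge {c η : ℝ} (c0 : 0 ≤ c) (c1 : c < 1) (e0 : 0 < η) (e1 : η ≤ 1) : ∃ Q : ℂ[X], ∀ z : ℂ,
    ‖z‖ ≤ 1 → z.re ≤ c * ‖z‖ → ‖z * Q.eval z‖ ≤ 6 ∧ (‖z‖ = 1 → ‖z * Q.eval z - 1‖ ≤ η) := by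
  let K : Set ℂ := {z | ‖z‖ ≤ 1 ∧ z.re ≤ c * ‖z‖}
  have hK : IsCompact K := (isCompact_closedBall (0 : ℂ) 1).of_isClosed_subset
    (IsClosed.and (isClosed_le (by fun_prop) (by fun_prop)) (isClosed_le (by fun_prop) (by fun_prop)))
    fun z hz => mem_closedBall_zero_iff.mpr hz.1
  haveI : CompactSpace K := isCompact_iff_compactSpace.mp hK
  let S := (polynomialFunctions K).topologicalClosure
  haveI hS : IsClosed (S : Set C(K, ℂ)) := Subalgebra.isClosed_topologicalClosure _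
  let x : S := ⟨(X : ℂ[X]).toContinuousMapOn K, Subalgebra.le_topologicalClosure _ ⟨X, trivial, rfl⟩⟩
  have hx : ∀ z : K, (x : C(K, ℂ)) z = z := fun z => by simp [x]
  have h1 : spectrum ℂ (x : C(K, ℂ)) = K := by
    rw [ContinuousMap.spectrum_eq_range]
    ext z
    exact ⟨by rintro ⟨w, rfl⟩; rw [hx]; exact w.2, fun h => ⟨⟨z, h⟩, hx _⟩⟩
  have h2 : IsPreconnected Kᶜ := by
    have : Kᶜ = (fun p : ℝ × ℝ => p.1 * Complex.exp (p.2 * Complex.I)) '' Set.Ioi 1 ×ˢ Set.univ ∪
        {z | c * ‖z‖ < z.re} := by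
      ext z
      simp only [K, Set.mem_compl_iff, Set.mem_setOf_eq, not_and_or, not_le, Set.mem_union]
      refine or_congr_left ⟨fun h => ⟨(‖z‖, z.arg), ⟨h, trivial⟩,
        Complex.norm_mul_exp_arg_mul_I z⟩, ?_⟩
      rintro ⟨⟨r, t⟩, ⟨h, -⟩, rfl⟩
      have h : 1 < r := h
      rwa [norm_mul, Complex.norm_exp_ofReal_mul_I, mul_one, Complex.norm_real,
        Real.norm_of_nonneg (by linarith)]
    rw [this]
    refine IsPreconnected.union 2 ⟨(2, 0), ⟨by norm_num, trivial⟩, by simp⟩ (by simp; linarith)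
      ((isPreconnected_Ioi.prod isPreconnected_univ).image _ (Continuous.continuousOn (by fun_prop)))
      (Convex.isPreconnected fun u hu v hv a b a0 b0 ab => ?_)
    simp only [Set.mem_setOf_eq, Complex.add_re, Complex.smul_re, smul_eq_mul] at hu hv ⊢
    have e2 := norm_add_le (a • u) (b • v)
    rw [norm_smul, norm_smul, Real.norm_of_nonneg a0, Real.norm_of_nonneg b0] at e2
    have e3 := mul_le_mul_of_nonneg_left e2 c0
    rcases a0.eq_or_lt with rfl | a1
    · obtain rfl : b = 1 := by linarith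
      linarith
    · nlinarith [mul_lt_mul_of_pos_left hu a1, mul_le_mul_of_nonneg_left hv.le b0]
  have h3 : ∀ a : ℝ, 0 < a → ∃ y : S, ∀ z : K, (y : C(K, ℂ)) z = z / (z - a) := by
    intro a a0
    have : (a : ℂ) ∉ spectrum ℂ x := by
      rw [Subalgebra.spectrum_eq_of_isPreconnected_compl S x (by rw [h1]; exact h2), h1]
      rintro ⟨-, h⟩
      rw [Complex.ofReal_re, Complex.norm_real, Real.norm_of_nonneg a0.le] at h
      nlinarith
    obtain ⟨y, hy⟩ := (spectrum.notMem_iff.mp this).exists_right_inv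
    refine ⟨-(x * y), fun z => ?_⟩
    have e := congrArg (fun s : S => (s : C(K, ℂ)) z) hy
    simp only [MulMemClass.coe_mul, AddSubgroupClass.coe_sub, ContinuousMap.mul_apply,
      ContinuousMap.sub_apply, hx, OneMemClass.coe_one, ContinuousMap.one_apply,
      Subalgebra.coe_algebraMap, Algebra.algebraMap_eq_smul_one, SetLike.val_smul,
      ContinuousMap.smul_apply, smul_eq_mul, mul_one] at e
    rw [eq_div_iff (est c0 c1 a0 z.2.2).1]
    simp only [NegMemClass.coe_neg, MulMemClass.coe_mul, ContinuousMap.neg_apply,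
      ContinuousMap.mul_apply, hx]
    linear_combination (z : ℂ) * e
  choose y hy using fun j : ℕ => h3 (1 / 2 / 2 ^ j) (by positivity)
  have c2 : 0 < 1 - c := by linarith
  obtain ⟨J, hJ⟩ := exists_pow_lt_of_lt_one (by positivity : 0 < η / 3)
    (exp_lt_one_iff.mpr (by linarith : -((1 - c) / 9) < 0))
  obtain ⟨G, g1, g2⟩ : ∃ G ∈ S, ∀ z : K,
      G z = Complex.exp (-((1 - c) / 2 : ℝ) *
        ∑ j ∈ range J, (z : ℂ) / (z - (1 / 2 / 2 ^ j : ℝ))) := by
    refine ⟨NormedSpace.exp ((-((1 - c) / 2 : ℝ) : ℂ) • ∑ j ∈ range J, (y j : C(K, ℂ))),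
      NormedSpace.exp_mem (R := ℂ) hS (S.smul_mem (sum_mem fun j _ => (y j).2) _), fun z => ?_⟩
    have := NormedSpace.map_exp (ContinuousMap.evalAlgHom ℂ ℂ z) (continuous_eval_const z)
      ((-((1 - c) / 2 : ℝ) : ℂ) • ∑ j ∈ range J, (y j : C(K, ℂ)))
    rw [Complex.exp_eq_exp_ℂ]
    refine this.trans ?_
    simp [hy]
  have g3 : ∀ z : K, ‖G z‖ ≤ 3 ∧ (‖(z : ℂ)‖ = 1 → ‖G z‖ ≤ η / 3) := fun z => by
    rw [g2, Complex.norm_exp, neg_mul, Complex.neg_re, Complex.re_ofReal_mul, Complex.re_sum]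
    constructor
    · have a1 : ∀ J : ℕ, -∑ j ∈ range J, ((z : ℂ) / (z - (1 / 2 / 2 ^ j : ℝ))).re ≤
          2 / (1 - c) * min (‖(z : ℂ)‖ / (1 / 2 ^ J)) 1 := by
        intro J
        induction J with
        | zero => simp only [sum_range_zero, neg_zero]; positivity
        | succ J ih =>
          have := (est c0 c1 (η := 1 / 2 / 2 ^ J) (by positivity) z.2.2).2.1
          rw [show 2 * (1 / 2 / (2 : ℝ) ^ J) = 1 / 2 ^ J by ring] at this
          rw [sum_range_succ, show 1 / (2 : ℝ) ^ (J + 1) = 1 / 2 / 2 ^ J by ring]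
          linarith
      have a2 := (a1 J).trans (mul_le_of_le_one_right (by positivity) (min_le_right _ _))
      rw [le_div_iff₀ c2] at a2
      exact (exp_le_exp.mpr (by linarith)).trans exp_one_lt_three.le
    · intro h
      have a1 := card_nsmul_le_sum (range J) _ (2 / 9) fun j _ =>
        (est c0 c1 (η := 1 / 2 / 2 ^ j) (by positivity) z.2.2).2.2 h
          (div_le_self (by norm_num) (one_le_pow₀ one_le_two))
      rw [card_range, nsmul_eq_mul] at a1
      rw [← exp_nat_mul] at hJ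
      exact (exp_le_exp.mpr (by nlinarith)).trans hJ.le
  obtain ⟨_, ⟨F, -, rfl⟩, hF⟩ := Metric.mem_closure_iff.mp g1 (η / 3) (by positivity)
  have f1 : ∀ z : K, ‖G z - F.eval (z : ℂ)‖ ≤ η / 3 := fun z => by
    rw [← dist_eq_norm]
    exact (ContinuousMap.dist_apply_le_dist z).trans hF.le
  have f2 := f1 ⟨0, by simp [K]⟩
  rw [g2] at f2
  simp only [zero_div, sum_const_zero, mul_zero, Complex.exp_zero] at f2
  refine ⟨-F.divX, fun z z1 z2 => ?_⟩
  have e := congrArg (eval z) F.X_mul_divX_add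
  rw [eval_add, eval_mul, eval_X, eval_C, coeff_zero_eq_eval_zero] at e
  have f3 := f1 ⟨z, z1, z2⟩
  obtain ⟨f4, f5⟩ := g3 ⟨z, z1, z2⟩
  simp only at f3 f5
  generalize G ⟨z, z1, z2⟩ = w at *
  have f6 : z * eval z (-F.divX) - 1 = (w - F.eval z) - (1 - F.eval 0) - w := by
    rw [eval_neg]
    linear_combination -e
  have f7 := (norm_sub_le _ _).trans (add_le_add_left (norm_sub_le (w - F.eval z) (1 - F.eval 0)) ‖w‖)
  rw [← f6] at f7
  refine ⟨?_, fun h => by linarith [f5 h]⟩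
  linarith [norm_le_norm_add_norm_sub' (z * eval z (-F.divX)) 1, norm_one (α := ℂ)]

theorem tp {u : ℝ → ℂ} (hu : Measurable u) {B : ℝ} (hB : ∀ t, ‖u t‖ ≤ B) {δ : ℝ} (hδ : 0 < δ) :
    ∃ (D : ℕ) (P : ℂ[X]), (∀ n, ‖P.coeff n‖ ≤ ∫ t in (0 : ℝ)..1, ‖u t‖) ∧
      volume {t | t ∈ Set.Ioc (0 : ℝ) 1 ∧ δ ≤ ‖P.eval (ee t) - ee (D * t) * u t‖} ≤
        ENNReal.ofReal δ := by
  have h1 : MemLp (AddCircle.liftIoc 1 0 u) 2 AddCircle.haarAddCircle :=
    (MemLp.memLp_liftIoc (MemLp.of_bound hu.aestronglyMeasurable B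
      (Eventually.of_forall hB))).haarAddCircle
  have fe : ∀ (j : ℤ) (t : ℝ), fourier j (t : AddCircle (1 : ℝ)) = ee (j * t) := fun j t => by
    rw [fourier_coe_apply, ee]
    congr 1
    push_cast
    ring
  have h2 := (hasSum_fourier_series_L2 h1.toLp).comp tendsto_Icc_neg
  rw [fourierCoeff_congr_ae h1.coeFn_toLp] at h2
  have h3 : ∀ j, ‖fourierCoeff (AddCircle.liftIoc 1 0 u) j‖ ≤ ∫ t in (0 : ℝ)..1, ‖u t‖ := fun j => by
    rw [fourierCoeff_eq_intervalIntegral _ _ 0, zero_add, div_one, one_smul]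
    refine (intervalIntegral.norm_integral_le_integral_norm zero_le_one).trans (le_of_eq ?_)
    rw [intervalIntegral.integral_of_le zero_le_one, intervalIntegral.integral_of_le zero_le_one]
    refine setIntegral_congr_fun measurableSet_Ioc fun t ht => ?_
    simp only [fe, smul_eq_mul, norm_mul, ee_norm, one_mul]
    rw [AddCircle.liftIoc_coe_apply (by simpa using ht)]
  generalize fourierCoeff (AddCircle.liftIoc 1 0 u) = c at h2 h3
  have h4 := (tendstoInMeasure_of_tendsto_Lp h2).congr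
    (f' := fun D : ℕ => (∑ j ∈ Icc (-(D : ℤ)) D, c j • fourier j : C(AddCircle (1 : ℝ), ℂ)))
    (fun D => by
      refine EventuallyEq.trans ?_ (ContinuousMap.coeFn_toLp (p := 2) (𝕜 := ℂ) _ _)
      simp only [Function.comp, map_sum, map_smul]
      rfl) h1.coeFn_toLp
  obtain ⟨D, hD⟩ := ((tendsto_order.mp (tendstoInMeasure_iff_norm.mp h4 δ hδ)).2 _
    (ENNReal.ofReal_pos.mpr hδ)).exists
  refine ⟨D, ∑ j ∈ Icc (-(D : ℤ)) D, monomial (j + D).toNat (c j), fun n => ?_, ?_⟩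
  · have h0 := (norm_zero (E := ℂ)).le.trans ((norm_nonneg _).trans (h3 0))
    rw [finset_sum_coeff]
    by_cases h : (n : ℤ) - D ∈ Icc (-(D : ℤ)) D
    · rw [sum_eq_single_of_mem _ h fun j hj e => by
        have := mem_Icc.mp hj
        rw [coeff_monomial, if_neg (by omega)], coeff_monomial]
      split_ifs
      exacts [h3 _, h0]
    · rwa [sum_eq_zero fun j hj => by
        rw [mem_Icc] at h hj
        rw [coeff_monomial, if_neg (by omega)]]
  · have h5 := (AddCircle.measurePreserving_mk 1 0).measure_preimage_le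
      {x | δ ≤ ‖(∑ j ∈ Icc (-(D : ℤ)) D, c j • fourier j : C(AddCircle (1 : ℝ), ℂ)) x -
        AddCircle.liftIoc 1 0 u x‖}
    rw [AddCircle.volume_eq_smul_haarAddCircle, ENNReal.ofReal_one, one_smul,
      Measure.restrict_apply' measurableSet_Ioc, zero_add] at h5
    refine le_trans (measure_mono fun t ht => Set.mem_inter ?_ ht.1) (h5.trans hD.le)
    refine ht.2.trans (le_of_eq ?_)
    have n1 : ∀ w : ℂ, ‖w‖ = ‖ee (D * t) * w‖ := fun w => by rw [norm_mul, ee_norm, one_mul]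
    rw [AddCircle.liftIoc_coe_apply (by simpa using ht.1), n1 (_ - u t), mul_sub, eval_finset_sum,
      ContinuousMap.sum_apply, mul_sum]
    congr 2
    refine sum_congr rfl fun j hj => ?_
    have := mem_Icc.mp hj
    have e : (((j + D).toNat : ℕ) : ℝ) = D + j := by
      rw [← Int.cast_natCast, Int.toNat_of_nonneg (by omega)]
      push_cast
      ring
    rw [eval_monomial, ContinuousMap.smul_apply, ← ee_nat, e, add_mul, ee_add, smul_eq_mul,
      ← fe j t, mul_left_comm]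

end Pool.Agent.H.MP_2e8a17_an
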