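import Pool.Agent.H.MP_2e8a17_an.A

set_option autoImplicit false

namespace Pool.Agent.H.MP_2e8a17_an
open Finset Filter Topology Real MeasureTheory Polynomial Pool.Agent.H.MP_f44585_an
  Pool.Agent.H.MP_0447a2_lc
open scoped ENNReal

theorem arcs {M : ℕ} {a κ ε : ℝ} (k0 : 0 < κ) (hM : 1 ≤ M * κ) (e0 : 0 ≤ ε) (e1 : ε ≤ 1) :
    volume {t | t ∈ Set.Ioc a (a + κ) ∧ ∃ k : ℤ, |M * t - k| < ε} ≤ ENNReal.ofReal (8 * ε * κ) := by
  have M0 : (0 : ℝ) < M := by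
    by_contra h
    nlinarith
  have h1 : {t | t ∈ Set.Ioc a (a + κ) ∧ ∃ k : ℤ, |M * t - k| < ε} ⊆
      ⋃ k ∈ Icc ⌊M * a⌋ ⌈M * (a + κ)⌉, Set.Ioo ((k - ε) / M) ((k + ε) / M) := by
    rintro t ⟨⟨t1, t2⟩, k, hk⟩
    rw [abs_lt] at hk
    have a1 := mul_lt_mul_of_pos_left t1 M0
    have a2 := mul_le_mul_of_nonneg_left t2 M0.le
    refine Set.mem_biUnion (x := k) (mem_coe.mpr (mem_Icc.mpr ⟨Int.floor_le_iff.mpr (by linarith),
      Int.le_ceil_iff.mpr (by linarith)⟩)) ⟨?_, ?_⟩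
    · rw [div_lt_iff₀ M0]; linarith
    · rw [lt_div_iff₀ M0]; linarith
  refine (measure_mono h1).trans ((measure_biUnion_finset_le _ _).trans ?_)
  have h2 : ∀ k : ℤ, (k + ε) / M - (k - ε) / M = 2 * ε / M := fun k => by ring
  simp only [Real.volume_Ioo, h2, sum_const, Int.card_Icc, nsmul_eq_mul]
  rw [← ENNReal.ofReal_natCast, ← ENNReal.ofReal_mul (Nat.cast_nonneg _)]
  refine ENNReal.ofReal_le_ofReal ?_
  have h3 : (((⌈M * (a + κ)⌉ + 1 - ⌊M * a⌋).toNat : ℕ) : ℝ) ≤ 4 * (M * κ) := by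
    have a1 := Int.ceil_lt_add_one (M * (a + κ))
    have a2 := Int.lt_floor_add_one (M * a)
    rcases le_total 0 (⌈M * (a + κ)⌉ + 1 - ⌊M * a⌋) with h | h
    · rw [← Int.cast_natCast, Int.toNat_of_nonneg h]
      push_cast
      linarith
    · rw [Int.toNat_of_nonpos h]
      push_cast
      linarith
  calc _ ≤ 4 * (M * κ) * (2 * ε / M) := by gcongr
    _ = _ := by field_simp; ring

theorem cos_le {x ε : ℝ} (e0 : 0 ≤ ε) (h : ∀ k : ℤ, ε ≤ |x - k|) : (ee x).re ≤ 1 - 8 * ε ^ 2 := by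
  have h1 : ee x = ee (x - round x) := by
    rw [sub_eq_add_neg, ee_add, ← Int.cast_neg, ee_int, mul_one]
  have h2 := abs_sub_round x
  have h3 := pow_le_pow_left₀ e0 (h (round x)) 2
  rw [h1]
  generalize x - round x = d at *
  rw [ee, mul_comm, Complex.exp_ofReal_mul_I_re]
  refine (cos_le_one_sub_mul_cos_sq ?_).trans ?_
  · rw [abs_mul, abs_of_pos two_pi_pos]
    nlinarith [pi_pos]
  · rw [show 2 / π ^ 2 * (2 * π * d) ^ 2 = 8 * d ^ 2 by field_simp; ring]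
    rw [sq_abs] at h3
    linarith

theorem osp {r : ℝ} (r0 : 0 ≤ r) (n : ℕ) : 1 - r ^ n ≤ n * (1 - r) := by
  have := one_add_mul_le_pow (a := r - 1) (by linarith) n
  rw [add_sub_cancel] at this
  linarith

theorem pw_le {r : ℝ} (r0 : 0 ≤ r) (r1 : r ≤ 1) (n : ℕ) : r ^ n * (1 - r) * n ≤ 1 := by
  have h1 := geom_sum_mul_neg r n
  have h2 := card_nsmul_le_sum (range n) (fun i => r ^ i) (r ^ n) fun i hi =>
    pow_le_pow_of_le_one r0 r1 (mem_range.mp hi).le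
  rw [card_range, nsmul_eq_mul] at h2
  nlinarith [mul_le_mul_of_nonneg_right h2 (sub_nonneg.mpr r1), pow_nonneg r0 n]

noncomputable def AA (Q : ℂ[X]) : ℝ := ∑ l ∈ range (Q.natDegree + 1), ‖Q.coeff l‖

theorem AA0 (Q : ℂ[X]) : 0 ≤ AA Q := sum_nonneg fun _ _ => norm_nonneg _

theorem AA_le (Q : ℂ[X]) {z : ℂ} (hz : ‖z‖ ≤ 1) : ‖Q.eval z‖ ≤ AA Q := by
  rw [eval_eq_sum_range]
  refine norm_sum_le_of_le _ fun l _ => ?_
  rw [norm_mul, norm_pow]
  exact mul_le_of_le_one_right (norm_nonneg _) (pow_le_one₀ (norm_nonneg _) hz)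

theorem lip (P : ℂ[X]) {r : ℝ} (r0 : 0 ≤ r) (r1 : r ≤ 1) (t : ℝ) :
    ‖P.eval (r * ee t) - P.eval (ee t)‖ ≤ AA P * P.natDegree * (1 - r) := by
  rw [eval_eq_sum_range, eval_eq_sum_range, ← sum_sub_distrib, AA, sum_mul, sum_mul]
  refine norm_sum_le_of_le _ fun l hl => ?_
  have h1 : (l : ℝ) ≤ P.natDegree := by exact_mod_cast Nat.lt_succ_iff.mp (mem_range.mp hl)
  rw [← mul_sub, mul_pow, ← sub_one_mul, norm_mul, norm_mul, norm_pow, ee_norm, one_pow, mul_one,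
    mul_assoc, ← Complex.ofReal_pow, ← Complex.ofReal_one, ← Complex.ofReal_sub, Complex.norm_real,
    Real.norm_eq_abs, abs_sub_comm, abs_of_nonneg (sub_nonneg.mpr (pow_le_one₀ r0 r1))]
  gcongr
  exact (osp r0 l).trans (by gcongr)

theorem mini {Q : ℂ[X]} {ε η : ℝ} (e0 : 0 ≤ ε) (e1 : ε ≤ 1) (h0 : 0 ≤ η) (h1 : η ≤ 1)
    (hQ : ∀ z : ℂ, ‖z‖ ≤ 1 → z.re ≤ (1 - 8 * ε ^ 2) * ‖z‖ →
      ‖z * Q.eval z‖ ≤ 6 ∧ (‖z‖ = 1 → ‖z * Q.eval z - 1‖ ≤ η))
    {u : ℝ → ℂ} (hu : Measurable u) {B a κ : ℝ} (hB : ∀ t, ‖u t‖ ≤ B) (k0 : 0 < κ)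
    (hs : ∀ t, t ∉ Set.Ioc a (a + κ) → u t = 0) {δ : ℝ} (d0 : 0 < δ) (N : ℕ) :
    ∃ (R : ℂ[X]) (E : Set ℝ), (∀ n, n < N → R.coeff n = 0) ∧ (∀ n, ‖R.coeff n‖ ≤ AA Q * (B * κ)) ∧
      volume E ≤ ENNReal.ofReal (δ + 8 * ε * κ) ∧ ∀ t ∈ Set.Ioc (0 : ℝ) 1, t ∉ E →
        ‖R.eval (ee t) - u t‖ ≤ η * ‖u t‖ + δ ∧
          ∀ r : ℝ, 0 ≤ r → r ≤ 1 → ‖R.eval (r * ee t)‖ ≤ 6 * ‖u t‖ + δ := by
  have A0 := AA0 Q
  have B0 : 0 ≤ B := (norm_nonneg _).trans (hB 0)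
  obtain ⟨δ', d1, d2⟩ : ∃ δ', 0 < δ' ∧ δ' * (AA Q + 7) = δ :=
    ⟨δ / (AA Q + 7), by positivity, by field_simp⟩
  have d3 : 0 ≤ δ' * AA Q := by positivity
  obtain ⟨D, P, p1, p2⟩ := tp hu hB d1
  have p3 : ∫ t in (0 : ℝ)..1, ‖u t‖ ≤ B * κ := by
    have a1 : Integrable ((Set.Ioc a (a + κ)).indicator fun _ => B) :=
      (integrable_indicator_iff measurableSet_Ioc).mpr (integrableOn_const (by simp))
    have a2 : ∀ t, ‖u t‖ ≤ (Set.Ioc a (a + κ)).indicator (fun _ => B) t := fun t => by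
      by_cases h : t ∈ Set.Ioc a (a + κ)
      · rw [Set.indicator_of_mem h]; exact hB t
      · rw [Set.indicator_of_notMem h, hs t h, norm_zero]
    have a3 : Integrable fun t => ‖u t‖ := a1.mono' hu.norm.aestronglyMeasurable
      (Eventually.of_forall fun t => by simpa using a2 t)
    rw [intervalIntegral.integral_of_le zero_le_one]
    refine (setIntegral_le_integral a3 (Eventually.of_forall fun _ => norm_nonneg _)).trans
      ((integral_mono a3 a1 a2).trans (le_of_eq ?_))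
    rw [integral_indicator_const _ measurableSet_Ioc, volume_real_Ioc_of_le (by linarith)]
    simp [mul_comm]
  obtain ⟨m, m1, m2, m3⟩ := ((eventually_ge_atTop N).and
    ((tendsto_natCast_atTop_atTop.eventually_ge_atTop (1 / κ)).and
      (tendsto_natCast_atTop_atTop.eventually_gt_atTop
        (AA Q * (AA P * (P.natDegree + D)) / δ')))).exists
  have P0 := AA0 P
  have m0 : (0 : ℝ) < m := lt_of_le_of_lt (by positivity) m3
  have ev : ∀ z, (∑ l ∈ range (Q.natDegree + 1), C (Q.coeff l) * (X ^ (m + l * (m + D)) * P)).eval z =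
      z ^ m * P.eval z * Q.eval (z ^ (m + D)) := fun z => by
    rw [eval_finset_sum, eval_eq_sum_range (p := Q), mul_sum]
    refine sum_congr rfl fun l _ => ?_
    rw [eval_mul, eval_mul, eval_C, eval_pow, eval_X, ← pow_mul]
    ring
  refine ⟨∑ l ∈ range (Q.natDegree + 1), C (Q.coeff l) * (X ^ (m + l * (m + D)) * P),
    {t | t ∈ Set.Ioc (0 : ℝ) 1 ∧ δ' ≤ ‖P.eval (ee t) - ee (D * t) * u t‖} ∪
      {t | t ∈ Set.Ioc a (a + κ) ∧ ∃ k : ℤ, |(m + D : ℕ) * t - k| < ε}, fun n hn => ?_, fun n => ?_,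
    (measure_union_le _ _).trans ?_, fun t ht hE => ?_⟩
  · rw [finset_sum_coeff]
    exact sum_eq_zero fun l _ => by rw [coeff_C_mul, coeff_X_pow_mul', if_neg (by omega), mul_zero]
  · rw [finset_sum_coeff, AA, sum_mul]
    refine norm_sum_le_of_le _ fun l _ => ?_
    rw [coeff_C_mul, coeff_X_pow_mul', norm_mul]
    gcongr
    split_ifs
    · exact (p1 _).trans p3
    · rw [norm_zero]; positivity
  · rw [ENNReal.ofReal_add d0.le (by positivity)]
    refine add_le_add (p2.trans (ENNReal.ofReal_le_ofReal (by linarith))) (arcs k0 ?_ e0 e1)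
    rw [div_le_iff₀ k0] at m2
    push_cast
    nlinarith [mul_nonneg (Nat.cast_nonneg (α := ℝ) D) k0.le]
  simp only [Set.mem_union, Set.mem_setOf_eq, not_or, not_and, not_le, not_exists, not_lt] at hE
  have a1 := (hE.1 ht).le
  have n1 : ∀ r : ℝ, 0 ≤ r → r ≤ 1 → ‖(r * ee t) ^ (m + D)‖ = r ^ (m + D) := fun r r0 _ => by
    rw [norm_pow, norm_mul, ee_norm, mul_one, Complex.norm_real, Real.norm_of_nonneg r0]
  have n2 : ∀ r : ℝ, 0 ≤ r → r ≤ 1 → ‖(r * ee t) ^ (m + D)‖ ≤ 1 := fun r r0 r1 =>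
    (n1 r r0 r1).le.trans (pow_le_one₀ r0 r1)
  have a2 : ∀ r : ℝ, 0 ≤ r → r ≤ 1 → t ∈ Set.Ioc a (a + κ) →
      ((r * ee t) ^ (m + D)).re ≤ (1 - 8 * ε ^ 2) * ‖(r * ee t) ^ (m + D)‖ := fun r r0 r1 h => by
    rw [n1 r r0 r1, mul_pow, ← Complex.ofReal_pow, Complex.re_ofReal_mul, ← ee_nat, mul_comm]
    exact mul_le_mul_of_nonneg_right (cos_le e0 (hE.2 h)) (pow_nonneg r0 _)
  obtain ⟨T, t1, t2⟩ : ∃ T, P.eval (ee t) = ee t ^ D * T ∧ ‖T - u t‖ ≤ δ' := by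
    refine ⟨ee (-(D * t)) * P.eval (ee t), ?_, a1.trans' (le_of_eq ?_)⟩
    · rw [← ee_nat, ← mul_assoc, ← ee_add, add_neg_cancel, ee_zero, one_mul]
    · rw [← one_mul ‖P.eval _ - _‖, ← ee_norm (-(D * t)), ← norm_mul, mul_sub, ← mul_assoc, ← ee_add,
        neg_add_cancel, ee_zero, one_mul]
  have t3 : ‖T‖ ≤ ‖u t‖ + δ' := by linarith [norm_le_norm_add_norm_sub' T (u t)]
  have a3 : ∀ r : ℝ, 0 ≤ r → r ≤ 1 → ‖(r * ee t) ^ (m + D) * Q.eval ((r * ee t) ^ (m + D)) * T‖ ≤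
      6 * ‖u t‖ + δ' * (AA Q + 6) := fun r r0 r1 => by
    rw [norm_mul]
    by_cases h : t ∈ Set.Ioc a (a + κ)
    · have := mul_le_mul (hQ _ (n2 r r0 r1) (a2 r r0 r1 h)).1 t3 (norm_nonneg _) (by norm_num)
      linarith
    · rw [hs t h, norm_zero, zero_add] at t3
      rw [hs t h, norm_mul]
      have := mul_le_mul (mul_le_mul (n2 r r0 r1) (AA_le Q (n2 r r0 r1)) (norm_nonneg _)
        zero_le_one) t3 (norm_nonneg _) (by positivity)
      simp only [norm_zero]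
      linarith
  refine ⟨?_, fun r r0 r1 => ?_⟩
  · have b1 := a3 1 zero_le_one le_rfl
    have b2 := n1 1 zero_le_one le_rfl
    have b3 := a2 1 zero_le_one le_rfl
    simp only [Complex.ofReal_one, one_mul, one_pow] at b1 b2 b3
    rw [ev, t1, show ee t ^ m * (ee t ^ D * T) * Q.eval (ee t ^ (m + D)) =
      ee t ^ (m + D) * Q.eval (ee t ^ (m + D)) * T by ring]
    by_cases h : t ∈ Set.Ioc a (a + κ)
    · have b4 := mul_le_mul ((hQ _ b2.le (b3 h)).2 b2) t3 (norm_nonneg _) h0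
      rw [← norm_mul, sub_one_mul] at b4
      have := norm_sub_le_norm_sub_add_norm_sub (ee t ^ (m + D) * Q.eval (ee t ^ (m + D)) * T) T (u t)
      nlinarith
    · rw [hs t h, norm_zero] at b1
      rw [hs t h, norm_zero, sub_zero]
      linarith
  · have b1 := lip P r0 r1 t
    have b2 : ‖P.eval (ee t) - (r : ℂ) ^ D * P.eval (ee t)‖ ≤ D * (1 - r) * AA P := by
      rw [← one_sub_mul, norm_mul, ← Complex.ofReal_pow, ← Complex.ofReal_one, ← Complex.ofReal_sub,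
        Complex.norm_real, Real.norm_of_nonneg (sub_nonneg.mpr (pow_le_one₀ r0 r1))]
      exact mul_le_mul (osp r0 D) (AA_le P (ee_norm t).le) (norm_nonneg _)
        (mul_nonneg (Nat.cast_nonneg _) (by linarith))
    have b3 := (norm_sub_le_norm_sub_add_norm_sub _ _ _).trans (add_le_add b1 b2)
    have b4 : ‖(r * ee t) ^ m * (P.eval (r * ee t) - (r : ℂ) ^ D * P.eval (ee t)) *
        Q.eval ((r * ee t) ^ (m + D))‖ ≤ δ' := by
      rw [norm_mul, norm_mul, norm_pow, norm_mul, ee_norm, mul_one, Complex.norm_real,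
        Real.norm_of_nonneg r0]
      rw [div_lt_iff₀ d1] at m3
      have c1 := pw_le r0 r1 m
      have c2 : 0 ≤ 1 - r := by linarith
      refine le_of_mul_le_mul_left ?_ m0
      calc _ ≤ m * (r ^ m * (AA P * P.natDegree * (1 - r) + D * (1 - r) * AA P) * AA Q) := by
            gcongr
            exact AA_le Q (n2 r r0 r1)
        _ = r ^ m * (1 - r) * m * (AA Q * (AA P * (P.natDegree + D))) := by ring
        _ ≤ 1 * (m * δ') := by gcongr
        _ = _ := by ring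
    rw [ev, show (r * ee t) ^ m * P.eval (r * ee t) * Q.eval ((r * ee t) ^ (m + D)) =
      (r * ee t) ^ (m + D) * Q.eval ((r * ee t) ^ (m + D)) * T + (r * ee t) ^ m *
        (P.eval (r * ee t) - (r : ℂ) ^ D * P.eval (ee t)) * Q.eval ((r * ee t) ^ (m + D)) by
      rw [t1]; ring]
    linarith [norm_add_le _ _ |>.trans (add_le_add (a3 r r0 r1) b4)]

theorem step {h : ℝ → ℂ} (hm : Measurable h) {B : ℝ} (hB : ∀ t, ‖h t‖ ≤ B) {ε : ℝ} (e0 : 0 < ε) :
    ∃ (R : ℂ[X]) (E : Set ℝ), (∀ n, ‖R.coeff n‖ ≤ ε) ∧ volume E ≤ ENNReal.ofReal ε ∧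
      ∀ t ∈ Set.Ioc (0 : ℝ) 1, t ∉ E → ‖R.eval (ee t) - h t‖ ≤ ε ∧
        ∀ r : ℝ, 0 ≤ r → r ≤ 1 → ‖R.eval (r * ee t)‖ ≤ 6 * ‖h t‖ + ε := by
  have B0 : 0 ≤ B := (norm_nonneg _).trans (hB 0)
  obtain ⟨e, a0, a1, a2⟩ : ∃ e : ℝ, 0 < e ∧ e ≤ 1 / 4 ∧ e ≤ ε / 16 :=
    ⟨min _ _, by positivity, min_le_left _ _, min_le_right _ _⟩
  obtain ⟨η, b0, b1, b2⟩ : ∃ η : ℝ, 0 < η ∧ η ≤ 1 ∧ η ≤ ε / 2 / (B + 1) :=
    ⟨min _ _, by positivity, min_le_left _ _, min_le_right _ _⟩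
  obtain ⟨Q, hQ⟩ := runge (c := 1 - 8 * e ^ 2) (by nlinarith) (by nlinarith) b0 b1
  have A0 := AA0 Q
  obtain ⟨L, hL⟩ := exists_nat_gt (AA Q * B / ε)
  have L0 : (0 : ℝ) < L := lt_of_le_of_lt (by positivity) hL
  have key : ∀ i : ℕ, ∃ (R : ℂ[X]) (E : Set ℝ), (∀ n, ‖R.coeff n‖ ≤ ε) ∧
      volume E ≤ ENNReal.ofReal (i * (ε / 2 / L + 8 * e * (1 / L))) ∧ ∀ t ∈ Set.Ioc (0 : ℝ) 1, t ∉ E →
        ‖R.eval (ee t) - (Set.Ioc 0 (i * (1 / L : ℝ))).indicator h t‖ ≤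
          η * ‖(Set.Ioc 0 (i * (1 / L : ℝ))).indicator h t‖ + i * (ε / 2 / L) ∧
        ∀ r : ℝ, 0 ≤ r → r ≤ 1 → ‖R.eval (r * ee t)‖ ≤
          6 * ‖(Set.Ioc 0 (i * (1 / L : ℝ))).indicator h t‖ + i * (ε / 2 / L) := by
    intro i
    induction i with
    | zero => exact ⟨0, ∅, fun n => by simp [e0.le], by simp, by simp⟩
    | succ i ih =>
      obtain ⟨R, E, r1, r2, r3⟩ := ih
      obtain ⟨R', E', s0, s1, s2, s3⟩ := mini a0.le (by linarith) b0.le b1 hQ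
        (u := (Set.Ioc (i * (1 / L : ℝ)) (i * (1 / L) + 1 / L)).indicator h)
        (hm.indicator measurableSet_Ioc) (fun t => (norm_indicator_le_norm_self _ _).trans (hB t))
        (by positivity) (fun t ht => Set.indicator_of_notMem ht _) (δ := ε / 2 / L) (by positivity)
        (R.natDegree + 1)
      have c0 : (0 : ℝ) ≤ i * (1 / L) := by positivity
      have c1 : (0 : ℝ) < 1 / L := by positivity
      refine ⟨R + R', E ∪ E', fun n => ?_, (measure_union_le _ _).trans ?_, fun t ht hE => ?_⟩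
      · rw [coeff_add]
        rcases lt_or_ge n (R.natDegree + 1) with c | c
        · rw [s0 n c, add_zero]; exact r1 n
        · rw [coeff_eq_zero_of_natDegree_lt c, zero_add]
          refine (s1 n).trans ?_
          rw [div_lt_iff₀ e0] at hL
          rw [mul_one_div, ← mul_div_assoc, div_le_iff₀ L0]
          linarith
      · rw [Nat.cast_succ, add_one_mul, ENNReal.ofReal_add (by positivity) (by positivity)]
        exact add_le_add r2 s2
      · rw [Set.mem_union, not_or] at hE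
        obtain ⟨r4, r5⟩ := r3 t ht hE.1
        obtain ⟨s4, s5⟩ := s3 t ht hE.2
        rw [Nat.cast_succ, add_one_mul, add_one_mul]
        obtain ⟨c2, c3⟩ : (Set.Ioc 0 (i * (1 / L : ℝ) + 1 / L)).indicator h t =
            (Set.Ioc 0 (i * (1 / L : ℝ))).indicator h t +
              (Set.Ioc (i * (1 / L : ℝ)) (i * (1 / L) + 1 / L)).indicator h t ∧
            ‖(Set.Ioc 0 (i * (1 / L : ℝ) + 1 / L)).indicator h t‖ =
              ‖(Set.Ioc 0 (i * (1 / L : ℝ))).indicator h t‖ +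
              ‖(Set.Ioc (i * (1 / L : ℝ)) (i * (1 / L) + 1 / L)).indicator h t‖ := by
          simp only [Set.indicator, Set.mem_Ioc, ht.1, true_and]
          rcases le_or_gt t (i * (1 / L)) with c | c
          · simp only [c, not_lt.mpr c, c.trans (le_add_of_nonneg_right c1.le)]
            simp
          · simp only [c, not_le.mpr c]
            simp
        refine ⟨?_, fun r r0 r1 => ?_⟩
        · rw [c3, c2, eval_add, add_sub_add_comm]
          linarith [norm_add_le _ _ |>.trans (add_le_add r4 s4)]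
        · rw [c3, eval_add]
          linarith [norm_add_le _ _ |>.trans (add_le_add (r5 r r0 r1) (s5 r r0 r1))]
  obtain ⟨R, E, r1, r2, r3⟩ := key L
  have e1 : L * (ε / 2 / L) = ε / 2 := by field_simp
  rw [mul_one_div_cancel L0.ne', e1] at r3
  refine ⟨R, E, r1, r2.trans (ENNReal.ofReal_le_ofReal ?_), fun t ht hE => ?_⟩
  · rw [mul_add, e1, mul_left_comm, mul_one_div_cancel L0.ne']
    linarith
  · obtain ⟨r4, r5⟩ := r3 t ht hE
    rw [Set.indicator_of_mem ht] at r4 r5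
    refine ⟨r4.trans ?_, fun r r0 r1 => (r5 r r0 r1).trans (by linarith)⟩
    rw [le_div_iff₀ (by positivity)] at b2
    nlinarith [hB t]

theorem tail {a : ℕ → ℂ} (S : ℂ[X]) {c r : ℝ} (h : ∀ n, ‖a n - S.coeff n‖ ≤ c) (r0 : 0 ≤ r)
    (r1 : r < 1) (t : ℝ) : ‖∑' n, a n * (r * ee t) ^ n - S.eval (r * ee t)‖ ≤ c * (1 - r)⁻¹ := by
  have h1 : HasSum (fun n => S.coeff n * (r * ee t) ^ n) (S.eval (r * ee t)) := by
    rw [eval_eq_sum_range]
    exact hasSum_sum_of_ne_finset_zero fun n hn => by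
      rw [coeff_eq_zero_of_natDegree_lt (by simpa using hn), zero_mul]
  have h2 : ∀ n, ‖(a n - S.coeff n) * (r * ee t) ^ n‖ ≤ c * r ^ n := fun n => by
    rw [norm_mul, norm_pow, norm_mul, ee_norm, mul_one, Complex.norm_real, Real.norm_of_nonneg r0]
    gcongr
    exact h n
  have h3 := (hasSum_geometric_of_lt_one r0 r1).mul_left c
  have h4 := ((Summable.of_norm_bounded h3.summable h2).hasSum.add h1).tsum_eq
  simp only [sub_mul, sub_add_cancel] at h4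
  rw [h4, add_sub_cancel_right]
  simp only [← sub_mul]
  exact tsum_of_norm_bounded h3 h2

theorem main (G : ℕ → ℝ → ℂ) (hm : ∀ k, Measurable (G k)) (hB : ∀ k t, ‖G k t‖ ≤ k) :
    ∃ a : ℕ → ℂ, (∀ n, ‖a n‖ ≤ 2) ∧ ∀ᵐ t : ℝ, t ∈ Set.Ioc (0 : ℝ) 1 → ∀ K, ∀ᶠ r : ℝ in 𝓝[<] 1,
      ∃ k, K ≤ k ∧ ‖∑' n, a n * (r * ee t) ^ n - G k t‖ ≤
        6 * ‖G (k + 1) t - G k t‖ + 10 * (1 / 2) ^ k := by
  have h1 : ∀ (k : ℕ) (s : ℂ[X] × ℝ), ∃ (s' : ℂ[X] × ℝ) (E : Set ℝ), 0 < s.2 → (0 < s'.2 ∧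
      s'.2 ≤ s.2 / 2 ∧ AA s'.1 * s'.1.natDegree * s'.2 ≤ (1 / 2) ^ k) ∧
      (∀ n, ‖(s'.1 - s.1).coeff n‖ ≤ s.2 * (1 / 2) ^ k) ∧
      volume E ≤ ENNReal.ofReal (s.2 * (1 / 2) ^ k) ∧ ∀ t ∈ Set.Ioc (0 : ℝ) 1, t ∉ E →
        ‖s'.1.eval (ee t) - G k t‖ ≤ s.2 * (1 / 2) ^ k ∧ ∀ r : ℝ, 0 ≤ r → r ≤ 1 →
          ‖(s'.1 - s.1).eval (r * ee t)‖ ≤ 6 * ‖G k t - s.1.eval (ee t)‖ + s.2 * (1 / 2) ^ k := by
    rintro k ⟨S, ρ⟩
    by_cases h : 0 < ρ
    swap
    · exact ⟨(S, ρ), ∅, fun e => absurd e h⟩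
    obtain ⟨R, E, r1, r2, r3⟩ := step (h := fun t => G k t - S.eval (ee t))
      ((hm k).sub (Continuous.measurable (by fun_prop))) (B := k + AA S)
      (fun t => (norm_sub_le _ _).trans (add_le_add (hB k t) (AA_le S (ee_norm t).le)))
      (ε := ρ * (1 / 2) ^ k) (by positivity)
    have A0 : 0 ≤ AA (S + R) * (S + R).natDegree := mul_nonneg (AA0 _) (Nat.cast_nonneg _)
    refine ⟨(S + R, min (ρ / 2) ((1 / 2) ^ k / (AA (S + R) * (S + R).natDegree + 1))), E, fun _ =>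
      ⟨⟨by positivity, min_le_left _ _, ?_⟩, by simpa using r1, r2, fun t ht hE => ?_⟩⟩
    · refine (mul_le_mul_of_nonneg_left (min_le_right _ _) A0).trans ?_
      rw [← mul_div_assoc, div_le_iff₀ (by positivity)]
      nlinarith [pow_pos (by norm_num : (0 : ℝ) < 1 / 2) k]
    · obtain ⟨r4, r5⟩ := r3 t ht hE
      simp only [add_sub_cancel_left, eval_add]
      exact ⟨le_of_eq_of_le (by congr 1; ring) r4, r5⟩
  choose nx E h1 using h1
  obtain ⟨s, s0, s1⟩ : ∃ s : ℕ → ℂ[X] × ℝ, s 0 = (0, 1) ∧ ∀ k, s (k + 1) = nx k (s k) :=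
    ⟨fun k => Nat.rec (0, 1) nx k, rfl, fun _ => rfl⟩
  have p0 : ∀ k, 0 < (s k).2 := fun k => by
    induction k with
    | zero => simp [s0]
    | succ k ih => rw [s1]; exact (h1 k _ ih).1.1
  have h2 := fun k => h1 k (s k) (p0 k)
  simp only [← s1] at h2
  have p1 : Antitone fun k => (s k).2 := antitone_nat_of_succ_le fun k => by
    linarith [(h2 k).1.2.1, p0 k]
  have p2 : ∀ k, (s k).2 ≤ (1 / 2) ^ k := fun k => by
    induction k with
    | zero => simp [s0]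
    | succ k ih => rw [pow_succ]; linarith [(h2 k).1.2.1]
  have p3 : ∀ k, (s k).2 * (1 / 2) ^ k ≤ (1 / 2) ^ k := fun k =>
    mul_le_of_le_one_left (by positivity) ((p1 k.zero_le).trans (by simp [s0]))
  have c1 : ∀ K n k, ‖((s (k + K + 1)).1 - (s (k + K)).1).coeff n‖ ≤
      (s K).2 * (1 / 2) ^ K * (1 / 2) ^ k := fun K n k => by
    refine ((h2 _).2.1 n).trans ?_
    rw [pow_add, mul_comm (_ ^ k), mul_assoc]
    gcongr
    exact p1 (Nat.le_add_left _ _)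
  have c2 : ∀ K n, ‖∑' k, ((s (k + 1)).1 - (s k).1).coeff n - (s K).1.coeff n‖ ≤
      (s K).2 * (1 / 2) ^ K * 2 := fun K n => by
    have e1 := sum_range_sub (fun k => (s k).1.coeff n) K
    rw [← Summable.sum_add_tsum_nat_add (f := fun k => ((s (k + 1)).1 - (s k).1).coeff n) K
      (Summable.of_norm_bounded (summable_geometric_two.mul_left _) (c1 0 n))]
    simp only [coeff_sub] at c1 ⊢
    rw [e1, s0, coeff_zero, sub_zero, add_sub_cancel_left]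
    exact tsum_of_norm_bounded (hasSum_geometric_two.mul_left _) (c1 K n)
  refine ⟨fun n => ∑' k, ((s (k + 1)).1 - (s k).1).coeff n, fun n => by simpa [s0] using c2 0 n, ?_⟩
  have h3 := ae_eventually_notMem (μ := volume) (s := fun k => E k (s k)) (ne_top_of_le_ne_top (by
    rw [← ENNReal.ofReal_tsum_of_nonneg (fun _ => by positivity) summable_geometric_two]
    exact ENNReal.ofReal_ne_top) (ENNReal.tsum_le_tsum fun k =>
      (h2 k).2.2.1.trans (ENNReal.ofReal_le_ofReal (p3 k))))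
  filter_upwards [h3] with t ht t0 K
  obtain ⟨K0, hK⟩ := eventually_atTop.mp ht
  filter_upwards [Ioo_mem_nhdsLT (a := 1 - (s (max K K0 + 1)).2) (b := 1) (by linarith [p0 (max K K0 + 1)])]
    with r ⟨r0, r1⟩
  have e1 : ∃ j, (s j).2 < 1 - r := by
    obtain ⟨n, hn⟩ := exists_pow_lt_of_lt_one (sub_pos.mpr r1) (y := 1 / 2) (by norm_num)
    exact ⟨n, (p2 n).trans_lt hn⟩
  have e2 := Nat.find_spec e1
  have e3 : max K K0 + 1 < Nat.find e1 := by
    by_contra hc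
    linarith [p1 (not_lt.mp hc)]
  obtain ⟨k, hk⟩ : ∃ k, Nat.find e1 = k + 2 := ⟨Nat.find e1 - 2, by omega⟩
  have e4 := not_lt.mp (Nat.find_min e1 (m := k + 1) (by omega))
  rw [hk] at e2 e3
  have e5 : 0 ≤ r := by linarith [p1 (max K K0 + 1).zero_le, show (s 0).2 = 1 by rw [s0]]
  refine ⟨k, by omega, ?_⟩
  have a1 := tail _ (c2 (k + 2)) e5 r1 t
  have a2 := ((h2 k).2.2.2 t t0 (hK k (by omega))).1.trans (p3 k)
  have a3 := ((h2 (k + 1)).2.2.2 t t0 (hK (k + 1) (by omega))).2 r e5 r1.le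
  have a4 := (lip (s (k + 1)).1 e5 r1.le t).trans ((mul_le_mul_of_nonneg_left e4
    (mul_nonneg (AA0 _) (Nat.cast_nonneg _))).trans (h2 k).1.2.2)
  have a5 : (s (k + 2)).2 * (1 / 2) ^ (k + 2) * 2 * (1 - r)⁻¹ ≤ (1 / 2) ^ k / 2 := by
    rw [← div_eq_mul_inv, div_le_iff₀ (by linarith), pow_add]
    nlinarith [pow_pos (by norm_num : (0 : ℝ) < 1 / 2) k]
  have a6 := p3 (k + 1)
  rw [eval_sub, show k + 1 + 1 = k + 2 from rfl] at a3
  rw [pow_succ] at a6 a3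
  have a7 := norm_sub_le_norm_sub_add_norm_sub (G (k + 1) t) (G k t) ((s (k + 1)).1.eval (ee t))
  rw [norm_sub_rev (G k t)] at a7
  generalize ∑' n, (∑' k, ((s (k + 1)).1 - (s k).1).coeff n) * (r * ee t) ^ n = f at a1 ⊢
  linarith [pow_pos (by norm_num : (0 : ℝ) < 1 / 2) k,
    norm_sub_le_norm_sub_add_norm_sub f ((s (k + 2)).1.eval (r * ee t)) (G k t),
    norm_sub_le_norm_sub_add_norm_sub ((s (k + 2)).1.eval (r * ee t))
      ((s (k + 1)).1.eval (r * ee t)) (G k t),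
    norm_sub_le_norm_sub_add_norm_sub ((s (k + 1)).1.eval (r * ee t))
      ((s (k + 1)).1.eval (ee t)) (G k t)]

theorem per {p : ℂ → Prop} (h : ∀ᵐ t : ℝ, t ∈ Set.Ioc (0 : ℝ) 1 → p (ee t)) :
    ∀ᵐ θ : ℝ, p (Complex.exp (θ * Complex.I)) := by
  have h1 : ∀ᵐ t : ℝ, p (ee t) := by
    filter_upwards [ae_all_iff.mpr fun n : ℤ =>
      (measurePreserving_sub_right volume (n : ℝ)).quasiMeasurePreserving.ae h] with t ht
    have := ht (⌈t⌉ - 1) ⟨by push_cast; linarith [Int.ceil_lt_add_one t],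
      by push_cast; linarith [Int.le_ceil t]⟩
    rwa [sub_eq_add_neg, ee_add, ← Int.cast_neg, ee_int, mul_one] at this
  have h2 : Measure.QuasiMeasurePreserving (fun θ : ℝ => (2 * π)⁻¹ * θ) :=
    ⟨by fun_prop, by
      rw [Real.map_volume_mul_left (by positivity)]
      exact Measure.smul_absolutelyContinuous⟩
  filter_upwards [h2.ae h1] with θ h
  rwa [ee, mul_inv_cancel_left₀ (by positivity), mul_comm] at h

theorem inf {f : ℝ → ℂ} {s : ℂ} (hs : ‖s‖ = 1) {l : Filter ℝ}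
    (h : ∀ K : ℕ, ∀ᶠ r in l, ∃ k : ℕ, K ≤ k ∧ ‖f r - s * k‖ ≤ 16) :
    Tendsto (fun r => ‖f r‖) l atTop ∧ Tendsto (fun r => f r / (‖f r‖ : ℝ)) l (𝓝 s) := by
  have h0 : ∀ (r : ℝ) (k : ℕ), |‖f r‖ - k| ≤ ‖f r - s * k‖ := fun r k => by
    simpa [hs] using abs_norm_sub_norm_le (f r) (s * k)
  have h1 : Tendsto (fun r => ‖f r‖) l atTop := tendsto_atTop.mpr fun b => by
    obtain ⟨K, hK⟩ := exists_nat_ge (b + 16)
    filter_upwards [h K] with r ⟨k, k1, k2⟩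
    have : (K : ℝ) ≤ k := by exact_mod_cast k1
    linarith [(abs_le.mp (h0 r k)).1]
  refine ⟨h1, tendsto_iff_norm_sub_tendsto_zero.mpr (squeeze_zero' (Eventually.of_forall fun _ =>
    norm_nonneg _) ?_ ((tendsto_const_nhds (x := (32 : ℝ))).div_atTop h1))⟩
  filter_upwards [h 0, h1.eventually_gt_atTop 0] with r ⟨k, _, k2⟩ r0
  rw [div_sub' (by exact_mod_cast r0.ne'), norm_div, Complex.norm_real, norm_norm]
  gcongr
  have : ‖s * k - ‖f r‖ * s‖ ≤ 16 := by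
    rw [mul_comm s, ← sub_mul, norm_mul, hs, mul_one, ← Complex.ofReal_natCast, ← Complex.ofReal_sub,
      Complex.norm_real, Real.norm_eq_abs, abs_sub_comm]
    exact (h0 r k).trans k2
  linarith [norm_sub_le_norm_sub_add_norm_sub (f r) (s * k) (‖f r‖ * s)]

noncomputable def cl (k : ℕ) (x : EReal) : ℝ := (max (-(k : ℝ) : ℝ) (min (k : ℝ) x : EReal) : EReal).toReal

theorem cl_coe (k : ℕ) (x : ℝ) : cl k x = max (-(k : ℝ)) (min k x) := by
  rw [cl, ← EReal.coe_strictMono.monotone.map_min, ← EReal.coe_strictMono.monotone.map_max,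
    EReal.toReal_coe]

theorem cl_top (k : ℕ) : cl k ⊤ = k := by
  rw [cl, min_top_right, ← EReal.coe_strictMono.monotone.map_max, EReal.toReal_coe,
    max_eq_right (neg_le_self (Nat.cast_nonneg k))]

theorem cl_bot (k : ℕ) : cl k ⊥ = -k := by
  rw [cl, min_bot_right, max_bot_right, EReal.toReal_coe]

theorem cl_le (k : ℕ) (x : EReal) : |cl k x| ≤ k := by
  have : (0 : ℝ) ≤ k := Nat.cast_nonneg k
  induction x with
  | bot => simp [cl_bot]
  | top => simp [cl_top]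
  | coe x => exact cl_coe k x ▸ abs_le.mpr ⟨le_max_left _ _, max_le (by linarith) (min_le_left _ _)⟩

end Pool.Agent.H.MP_2e8a17_an
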